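import Mathlib
import Pool.Agent.H343.QF.StL

set_option autoImplicit false

/-! # QF-L4: the relations of the multiplication table are recursively enumerable -/

namespace Pool.Agent.H695.QF.L4

open Pool.Agent.H343.QF
open Encodable

/-- recursively enumerable relations are closed under projections -/
theorem re_exists {α β : Type} [Primcodable α] [Primcodable β] {p : α → β → Prop}
    (hp : REPred (fun q : α × β => p q.1 q.2)) : REPred (fun a => ∃ b, p a b) := by
  obtain ⟨c, hc⟩ := Nat.Partrec.Code.exists_code.1 hp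
  have hcomp : Computable₂ (fun (a : α) (m : ℕ) =>
      Nat.Partrec.Code.evaln m.unpair.1 c (Nat.pair (encode a) m.unpair.2)) := by
    have h1 : Primrec (fun q : α × ℕ =>
        Nat.Partrec.Code.evaln q.2.unpair.1 c (Nat.pair (encode q.1) q.2.unpair.2)) := by
      refine Nat.Partrec.Code.primrec_evaln.comp
        (f := fun a : (ℕ × Nat.Partrec.Code) × ℕ => Nat.Partrec.Code.evaln a.1.1 a.1.2 a.2)
        (g := fun q : α × ℕ => ((q.2.unpair.1, c), Nat.pair (encode q.1) q.2.unpair.2)) ?_
      refine Primrec.pair (Primrec.pair ?_ (Primrec.const c)) ?_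
      · exact Primrec.fst.comp (Primrec.unpair.comp Primrec.snd)
      · exact Primrec₂.natPair.comp (Primrec.encode.comp Primrec.fst)
          (Primrec.snd.comp (Primrec.unpair.comp Primrec.snd))
    exact h1.to_comp
  have hF := Partrec.rfindOpt hcomp
  refine (Partrec.dom_re hF).of_eq ?_
  intro a
  rw [Nat.rfindOpt_dom]
  constructor
  · rintro ⟨m, x, hx⟩
    have h2 := Nat.Partrec.Code.evaln_sound hx
    rw [hc] at h2
    simp only [Part.mem_bind_iff, Part.mem_ofOption, Option.mem_def, Encodable.decode_prod_val,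
      Nat.unpair_pair, Encodable.encodek, Option.bind_some, Option.map_eq_some_iff] at h2
    obtain ⟨q, ⟨b, _, rfl⟩, hq⟩ := h2
    rw [Part.mem_map_iff] at hq
    obtain ⟨y, hy, _⟩ := hq
    rw [Part.mem_assert_iff] at hy
    obtain ⟨hy, _⟩ := hy
    exact ⟨b, hy⟩
  · rintro ⟨b, hb⟩
    have h2 : encode () ∈ Nat.Partrec.Code.eval c (Nat.pair (encode a) (encode b)) := by
      rw [hc]
      simp only [Part.mem_bind_iff, Part.mem_ofOption, Option.mem_def, Encodable.decode_prod_val,
        Nat.unpair_pair, Encodable.encodek, Option.bind_some, Option.map_some]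
      refine ⟨(a, b), rfl, ?_⟩
      rw [Part.mem_map_iff]
      refine ⟨(), ?_, rfl⟩
      rw [Part.mem_assert_iff]
      exact ⟨hb, Part.mem_some _⟩
    obtain ⟨k, hk⟩ := Nat.Partrec.Code.evaln_complete.1 h2
    refine ⟨Nat.pair k (encode b), encode (), ?_⟩
    simpa using hk

theorem re_comp {α β : Type} [Primcodable α] [Primcodable β] {p : β → Prop} (hp : REPred p)
    {f : α → β} (hf : Computable f) : REPred (fun a => p (f a)) :=
  Partrec.comp (f := fun b => Part.assert (p b) fun _ => Part.some ()) hp hf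

theorem re_and {α : Type} [Primcodable α] {p q : α → Prop} (hp : ComputablePred p)
    (hq : REPred q) : REPred (fun a => p a ∧ q a) := by
  obtain ⟨f, hf, rfl⟩ := ComputablePred.computable_iff.1 hp
  unfold REPred
  refine (Partrec.cond hf hq Partrec.none).of_eq fun n => Part.ext fun a => ?_
  cases a
  cases h : f n <;> simp [h]

/-- the word of `a ^ n` -/
def pw (n : ℕ) : List (Fin 2 × Bool) := List.map (fun _ => ((0 : Fin 2), true)) (List.range n)

/-- the word of the block product -/
def bl (k : ℕ) : ℕ → List (Fin 2 × Bool)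
  | 0 => []
  | n + 1 => bl k n ++ (pw (k * (n + 1)) ++ [((1 : Fin 2), true)])

theorem mk_pw (n : ℕ) : (FreeGroup.mk (pw n) : F2) = xa ^ n := by
  induction n with
  | zero => rfl
  | succ n ih =>
    have e : pw (n + 1) = pw n ++ [((0 : Fin 2), true)] := by
      simp [pw, List.range_succ]
    rw [e, ← FreeGroup.mul_mk, ih, pow_succ]
    rfl

theorem mk_bl (k n : ℕ) : (FreeGroup.mk (bl k n) : F2) = blk xb (xa ^ k) n := by
  induction n with
  | zero => rfl
  | succ n ih =>
    show (FreeGroup.mk (bl k n ++ (pw (k * (n + 1)) ++ [((1 : Fin 2), true)])) : F2) =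
      blk xb (xa ^ k) n * ((xa ^ k) ^ (n + 1) * xb)
    rw [← FreeGroup.mul_mk, ← FreeGroup.mul_mk, ih, mk_pw, pow_mul]
    rfl

theorem primrec_pw : Primrec pw :=
  Primrec.list_map Primrec.list_range (Primrec.const _).to₂

theorem primrec_bl (n : ℕ) : Primrec (fun k => bl k n) := by
  induction n with
  | zero => exact Primrec.const []
  | succ n ih =>
    have h1 : Primrec (fun k : ℕ => pw (k * (n + 1))) :=
      primrec_pw.comp (Primrec.nat_mul.comp Primrec.id (Primrec.const (n + 1)))
    exact Primrec.list_append.comp ih (Primrec.list_append.comp h1 (Primrec.const _))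

theorem primrec_invRev : Primrec (fun l : List (Fin 2 × Bool) => FreeGroup.invRev l) := by
  have h : Primrec (fun l : List (Fin 2 × Bool) => (l.map (fun g => (g.1, !g.2))).reverse) := by
    refine Primrec.list_reverse.comp (Primrec.list_map Primrec.id ?_)
    exact (Primrec.pair (Primrec.fst.comp Primrec.snd)
      (Primrec.not.comp (Primrec.snd.comp Primrec.snd))).to₂
  exact h

theorem blk_map {G H : Type} [Group G] [Group H] (f : G →* H) (c p : G) (n : ℕ) :
    blk (f c) (f p) n = f (blk c p n) := by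
  induction n with
  | zero => exact f.map_one.symm
  | succ n ih =>
    show blk (f c) (f p) n * ((f p) ^ (n + 1) * f c) = f (blk c p n * (p ^ (n + 1) * c))
    rw [ih, map_mul, map_mul, map_pow]

theorem Wd_q (B i : ℕ) :
    Wd B (ga B) (gb B) i = ((FreeGroup.mk (bl i B) : F2) : GG B) := by
  unfold Wd
  have h := blk_map (QuotientGroup.mk' (KI B (eeB B))) xb (xa ^ i) B
  rw [mk_bl]
  exact h

theorem eqG_iff (B i j : ℕ) : EqG B i j ↔
    (FreeGroup.mk (FreeGroup.invRev (bl i B) ++ bl j B) : F2) ∈ KI B (eeB B) := by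
  unfold EqG
  rw [Wd_q, Wd_q, QuotientGroup.eq, FreeGroup.inv_mk, FreeGroup.mul_mk]

theorem lleG_iff (B i n : ℕ) : LleG B (Wd B (ga B) (gb B) i) n ↔
    ∃ l : List (Fin 2 × Bool), l.length ≤ n ∧
      (FreeGroup.mk (FreeGroup.invRev l ++ bl i B) : F2) ∈ KI B (eeB B) := by
  unfold LleG
  refine exists_congr fun l => and_congr_right fun _ => ?_
  rw [Wd_q, QuotientGroup.eq, FreeGroup.inv_mk, FreeGroup.mul_mk]

theorem primrec_eeB (B : ℕ) : Primrec (eeB B) := by
  have h : Primrec (Nat.rec (motive := fun _ => ℕ) (10 ^ 20 * B ^ 6)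
      (fun m IH => 10 ^ 20 * B ^ 6 * (m + 2) ^ 2 * IH)) := by
    refine Primrec.nat_rec₁ (f := fun m IH => 10 ^ 20 * B ^ 6 * (m + 2) ^ 2 * IH) _ ?_
    have h2 : Primrec (fun q : ℕ × ℕ => q.1 + 2) := Primrec.nat_add.comp Primrec.fst
      (Primrec.const 2)
    have h3 : Primrec (fun q : ℕ × ℕ => (q.1 + 2) ^ 2) :=
      (Primrec.nat_mul.comp h2 h2).of_eq (fun q => (sq (q.1 + 2)).symm)
    exact (Primrec.nat_mul.comp (Primrec.nat_mul.comp (Primrec.const _) h3) Primrec.snd).to₂
  refine h.of_eq (fun n => ?_)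
  induction n with
  | zero => rfl
  | succ n ih =>
    show 10 ^ 20 * B ^ 6 * (n + 2) ^ 2 * _ = 10 ^ 20 * B ^ 6 * (n + 2) ^ 2 * eeB B n
    rw [ih]

theorem re : S_wp → S_re := by
  intro hwp B
  have hB := hwp B
  refine ⟨?_, ?_, ?_⟩
  · have hf : Computable (fun n : ℕ =>
        FreeGroup.invRev (bl n.unpair.1 B) ++ bl n.unpair.2 B) := by
      have h1 : Primrec (fun n : ℕ => bl n.unpair.1 B) :=
        (primrec_bl B).comp (Primrec.fst.comp Primrec.unpair)
      have h2 : Primrec (fun n : ℕ => bl n.unpair.2 B) :=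
        (primrec_bl B).comp (Primrec.snd.comp Primrec.unpair)
      exact (Primrec.list_append.comp (primrec_invRev.comp h1) h2).to_comp
    exact (re_comp hB hf).of_eq (fun n => (eqG_iff B _ _).symm)
  · refine REPred.of_eq (p := fun n : ℕ => ∃ l : List (Fin 2 × Bool), l.length ≤ n.unpair.2 ∧
      (FreeGroup.mk (FreeGroup.invRev l ++ bl n.unpair.1 B) : F2) ∈ KI B (eeB B)) ?_
      (fun n => (lleG_iff B _ _).symm)
    refine re_exists (p := fun (n : ℕ) (l : List (Fin 2 × Bool)) => l.length ≤ n.unpair.2 ∧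
      (FreeGroup.mk (FreeGroup.invRev l ++ bl n.unpair.1 B) : F2) ∈ KI B (eeB B)) ?_
    refine re_and ?_ ?_
    · have h1 : PrimrecPred (fun q : ℕ × List (Fin 2 × Bool) =>
          q.2.length ≤ q.1.unpair.2) :=
        Primrec.nat_le.comp (Primrec.list_length.comp Primrec.snd)
          (Primrec.snd.comp (Primrec.unpair.comp Primrec.fst))
      exact h1.computablePred
    · have h1 : Primrec (fun q : ℕ × List (Fin 2 × Bool) => bl q.1.unpair.1 B) :=
        (primrec_bl B).comp (Primrec.fst.comp (Primrec.unpair.comp Primrec.fst))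
      have hf : Computable (fun q : ℕ × List (Fin 2 × Bool) =>
          FreeGroup.invRev q.2 ++ bl q.1.unpair.1 B) :=
        (Primrec.list_append.comp (primrec_invRev.comp Primrec.snd) h1).to_comp
      exact re_comp hB hf
  · intro σ
    have h1 : Primrec (fun n : ℕ => cdR B σ n.unpair.1) := by
      unfold cdR
      refine (primrec_eeB B).comp ?_
      refine Primrec.nat_add.comp (Primrec.nat_mul.comp (Primrec.const 2) ?_) (Primrec.const 1)
      exact Primrec.nat_add.comp (Primrec.nat_mul.comp (Primrec.const 4)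
        (Primrec.fst.comp Primrec.unpair)) (Primrec.const σ)
    have h2 : PrimrecPred (fun n : ℕ => n.unpair.2 = cdR B σ n.unpair.1) :=
      Primrec.eq.comp (Primrec.snd.comp Primrec.unpair) h1
    exact h2.computablePred.to_re

end Pool.Agent.H695.QF.L4

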